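import Pool.Agent.helper62.MS.SpecF
import Pool.Agent.helper62.EN.XFL
import Pool.Agent.helper74.RS.ESM

set_option autoImplicit false

/-!
# MP_07c750, row ms:CRE (the estimate for continuous functions)
-/

open scoped MatrixGroups ContDiff Topology UpperHalfPlane ComplexConjugate
open UpperHalfPlane MeasureTheory Filter Set

namespace Pool.Agent.MS

open Pool.Agent.RS
open Pool.Agent.EN (XG MG mkX mkM fl pr)

/-- A continuous function with values in `[0, 1]` is integrable. -/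
theorem CRE_int {Y : Type} [TopologicalSpace Y] [MeasurableSpace Y] [BorelSpace Y] (ρ : Measure Y)
    [IsFiniteMeasure ρ] (V : Y → ℝ) (hV : Continuous V) (h01 : ∀ x, 0 ≤ V x ∧ V x ≤ 1) :
    Integrable V ρ := by
  refine Integrable.of_bound hV.aestronglyMeasurable 1 (Eventually.of_forall fun x => ?_)
  rw [Real.norm_eq_abs, abs_of_nonneg (h01 x).1]
  exact (h01 x).2

/-- The errors tend to zero. -/
theorem CRE_lim (M m L : ℝ)
    (h : ∀ ε : ℝ, 0 < ε → ε ≤ 1 → (M - ε) * (m - ε) ≤ L + 2 * ε) : m * M ≤ L := by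
  refine le_of_forall_pos_le_add fun η hη => ?_
  have hD0 : 0 < 2 + |M| + |m| := by positivity
  have hε0 : 0 < min 1 (η / (2 + |M| + |m|)) := lt_min one_pos (div_pos hη hD0)
  have hε1 : min 1 (η / (2 + |M| + |m|)) ≤ 1 := min_le_left _ _
  have hε2 : min 1 (η / (2 + |M| + |m|)) * (2 + |M| + |m|) ≤ η :=
    (le_div_iff₀ hD0).1 (min_le_right _ _)
  have h1 := h _ hε0 hε1
  generalize min 1 (η / (2 + |M| + |m|)) = ε at *
  have h2 : ε * M ≤ ε * |M| := mul_le_mul_of_nonneg_left (le_abs_self M) hε0.le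
  have h3 : ε * m ≤ ε * |m| := mul_le_mul_of_nonneg_left (le_abs_self m) hε0.le
  nlinarith [sq_nonneg ε]

/-- The integral over the exceptional set. -/
theorem CRE_set {X : Type} [TopologicalSpace X] [MeasurableSpace X] [BorelSpace X] (μ : Measure X)
    [IsProbabilityMeasure μ] (Ψ : X → ℝ) (hΨ : Continuous Ψ) (h01 : ∀ x, 0 ≤ Ψ x ∧ Ψ x ≤ 1)
    (S : Set X) (hS : ∀ x ∈ S, Ψ x = 1) : μ.real S ≤ ∫ x, Ψ x ∂μ := by
  have hT : MeasurableSet (Ψ ⁻¹' {1}) := hΨ.measurable (measurableSet_singleton 1)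
  have hST : S ⊆ Ψ ⁻¹' {1} := fun x hx => hS x hx
  have h1 : μ.real S ≤ μ.real (Ψ ⁻¹' {1}) := measureReal_mono hST (measure_ne_top _ _)
  refine h1.trans ?_
  have h2 : ∫ x, (Ψ ⁻¹' {1}).indicator (fun _ => (1 : ℝ)) x ∂μ = μ.real (Ψ ⁻¹' {1}) := by
    rw [integral_indicator hT, setIntegral_const, smul_eq_mul, mul_one]
  rw [← h2]
  refine integral_mono ((integrable_const (1 : ℝ)).indicator hT) (CRE_int μ Ψ hΨ h01) fun x => ?_
  by_cases hx : x ∈ Ψ ⁻¹' {1}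
  · show (Ψ ⁻¹' {1}).indicator (fun _ => (1 : ℝ)) x ≤ Ψ x
    rw [indicator_of_mem hx]
    exact (show Ψ x = 1 from hx).ge
  · show (Ψ ⁻¹' {1}).indicator (fun _ => (1 : ℝ)) x ≤ Ψ x
    rw [indicator_of_notMem hx]
    exact (h01 x).1

theorem CRE_proof (h1 : MU_stmt) (h2 : EZC_stmt) (h3 : MS1_stmt) (h4 : STB_stmt) : CRE_stmt := by
  intro Γ F r φ ν E hΓ hF hr hφ hnn hν hlim hE hdim
  obtain ⟨-, hpr, hmkX, homX, hsX, hmkM, homM, hsM, -, -, heqX, heqM⟩ := EN.XFL_proof Γ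
  obtain ⟨α, hα⟩ := (h4.2.2.2.2.2 (1 / 8) (by norm_num)).1
  obtain ⟨β, hβ⟩ := (h4.2.2.2.2.2 (1 / 4) (by norm_num)).2
  obtain ⟨μ, hμp, hμi, hμν, hμ⟩ := h1 Γ F β α r φ ν hΓ hF hβ hα hr hφ hnn hν hlim
  have hmE : ν.real E = μ.real (pr Γ ⁻¹' E) := by
    rw [← hμν, measureReal_def, measureReal_def, Measure.map_apply hpr.measurable hE]
  have hm0 : 0 ≤ ν.real E := measureReal_nonneg
  have hm1 : ν.real E ≤ 1 := by
    rw [hmE]
    exact measureReal_le_one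
  have hCV := fun a ha => h2 Γ μ E hΓ hμp hμi hE hdim a ha
  rw [← hmE] at hCV
  -- functions of class `C²`
  have hkey : ∀ V' : MG Γ → ℝ, Continuous V' → (∀ x, 0 ≤ V' x ∧ V' x ≤ 1) →
      QU.CD 2 (fun z => V' (mkM Γ z)) →
        ν.real E * ((∫ z in F, V' (mkM Γ z)) / (volume F).toReal) ≤ ∫ x, V' x ∂ν := by
    intro V' hV' h01 hCD
    refine CRE_lim _ _ _ fun ε hε0 hε1 => ?_
    obtain ⟨a, δ, n1, ha, hδ, hδε, hA⟩ := h3 Γ F (fun z => V' (mkM Γ z)) β α hΓ hF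
      ⟨hV'.comp hmkM, fun γ z => by
        have : mkM Γ (γ • z) = mkM Γ z := ((heqM z (γ • z)).2 ⟨γ, rfl⟩).symm
        exact congrArg V' this⟩ hCD (fun z => h01 _) hβ hα ε hε0 hε1
    obtain ⟨n0, hn0⟩ := hCV a ha δ hδ
    obtain ⟨A, hAc, hAm⟩ := hn0 (max n0 n1) (le_max_left _ _)
    obtain ⟨Ψ, r2, hΨi, hΨ01, hΨ1, hr2, hmain⟩ := hA (max n0 n1) (le_max_right _ _) A hAc
    have hlift : ∀ g g' : SL(2, ℝ), (MulAction.orbitRel Γ SL(2, ℝ)) g g' → Ψ g = Ψ g' := by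
      rintro g g' ⟨γ, hγ⟩
      have hγ' : (γ : SL(2, ℝ)) * g' = g := hγ
      rw [← hγ', hΨi.2 γ g']
    set Ψ' : XG Γ → ℝ := Quotient.lift Ψ hlift with hΨ'
    have hΨ'c : Continuous Ψ' := hΨi.1.quotient_lift hlift
    have hΨ'm : ∀ g, Ψ' (mkX Γ g) = Ψ g := fun g => rfl
    have hΨ'01 : ∀ x, 0 ≤ Ψ' x ∧ Ψ' x ≤ 1 := by
      intro x
      obtain ⟨g, rfl⟩ := hsX x
      rw [hΨ'm]
      exact hΨ01 g
    have hS := CRE_set μ Ψ' hΨ'c hΨ'01
      {x | ∃ y ∈ A, ∃ h : SL(2, ℝ), bq a a (a * Real.exp (-(max n0 n1 : ℕ))) h ∧ x = mkX Γ (y * h)}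
      (by
        rintro x ⟨y, hy, h, hh, rfl⟩
        rw [hΨ'm]
        refine hΨ1 (y * h) ⟨y, hy, 1, ?_⟩
        have : y⁻¹ * ((1 : Γ) : SL(2, ℝ)) * (y * h) = h := by
          rw [Subgroup.coe_one, mul_one, inv_mul_cancel_left]
        rw [this]
        exact hh)
    have hb : ν.real E - 2 * δ < ∫ x, Ψ' x ∂μ := by linarith
    have hfr := hμ Ψ' (ν.real E - 2 * δ) hΨ'c hb
    have hev1 : ∀ᶠ k in atTop, r2 ≤ r k := hr.eventually_ge_atTop r2
    have hev2 : ∀ᶠ k in atTop, ∫ z in F, V' (mkM Γ z) * ‖φ k z‖ ^ 2 < ∫ x, V' x ∂ν + ε :=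
      (hlim V' hV').eventually (gt_mem_nhds (by linarith))
    obtain ⟨k, ⟨t, ht1, ht2, ht3⟩, hk1, hk2⟩ := (hfr.and_eventually (hev1.and hev2)).exists
    have hEL : EigL Γ (1 / 4 + r k ^ 2) (φ k) := by
      refine ⟨(hφ k).1.of_le (WithTop.coe_le_coe.2 (le_top : (2 : ℕ∞) ≤ ⊤)), (hφ k).2.1, (hφ k).2.2⟩
    have := hmain (r k) (ν.real E) t (φ k) hk1 hEL (hnn k) hm0 hm1 ht1 ht2 ht3
    linarith
  -- continuous functions
  intro V hVc h01
  obtain ⟨K, hK, hFK⟩ := hF.rel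
  have hFfin : volume F ≠ ⊤ := ((measure_mono hFK).trans_lt hK.measure_lt_top).ne
  have hfr : IsFiniteMeasure ((volume : Measure ℍ).restrict F) :=
    ⟨by rw [Measure.restrict_apply_univ]; exact hFfin.lt_top⟩
  have hν0 : 0 ≤ ν.real univ := measureReal_nonneg
  refine le_of_forall_pos_le_add fun η hη => ?_
  have hD0 : 0 < 1 + ν.real univ := by linarith
  have hε0 : 0 < η / (1 + ν.real univ) := div_pos hη hD0
  have hε2 : η / (1 + ν.real univ) * (1 + ν.real univ) = η := div_mul_cancel₀ _ hD0.ne'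
  generalize η / (1 + ν.real univ) = ε at hε0 hε2
  obtain ⟨h', hi, hCD, happ, h01'⟩ := RS.ESM Γ (fun z => V (mkM Γ z)) 0 1 ε hΓ
    ⟨hVc.comp hmkM, fun γ z => by
      have : mkM Γ (γ • z) = mkM Γ z := ((heqM z (γ • z)).2 ⟨γ, rfl⟩).symm
      exact congrArg V this⟩ (fun z => h01 _) hε0
  have hlift : ∀ a b : ℍ, (MulAction.orbitRel Γ ℍ) a b → h' a = h' b := by
    rintro a b ⟨γ, hγ⟩
    have hγ' : γ • b = a := hγ
    rw [← hγ', hi.2 γ b]
  set V' : MG Γ → ℝ := Quotient.lift h' hlift with hV'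
  have hV'c : Continuous V' := hi.1.quotient_lift hlift
  have hV'm : ∀ z, V' (mkM Γ z) = h' z := fun z => rfl
  have hV'01 : ∀ x, 0 ≤ V' x ∧ V' x ≤ 1 := by
    intro x
    obtain ⟨z, rfl⟩ := hsM x
    rw [hV'm]
    exact h01' z
  have hV'a : ∀ x, |V' x - V x| ≤ ε := by
    intro x
    obtain ⟨z, rfl⟩ := hsM x
    rw [hV'm]
    exact happ z
  have k1 := hkey V' hV'c hV'01 hCD
  have i1 : Integrable (fun z => V (mkM Γ z)) ((volume : Measure ℍ).restrict F) :=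
    CRE_int _ _ (hVc.comp hmkM) fun z => h01 _
  have i2 : Integrable (fun z => V' (mkM Γ z)) ((volume : Measure ℍ).restrict F) :=
    CRE_int _ _ (hV'c.comp hmkM) fun z => hV'01 _
  have i3 : Integrable V ν := CRE_int ν _ hVc h01
  have i4 : Integrable V' ν := CRE_int ν _ hV'c hV'01
  have k2 : ∫ z in F, V (mkM Γ z) ≤ (∫ z in F, V' (mkM Γ z)) + (volume F).toReal * ε := by
    have e1 : ∫ z in F, (V' (mkM Γ z) + ε) = (∫ z in F, V' (mkM Γ z)) + (volume F).toReal * ε := by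
      rw [integral_add i2 (integrable_const _), setIntegral_const, measureReal_def, smul_eq_mul]
    rw [← e1]
    refine integral_mono i1 (i2.add (integrable_const _)) fun z => ?_
    have := (abs_le.1 (hV'a (mkM Γ z))).1
    show V (mkM Γ z) ≤ V' (mkM Γ z) + ε
    linarith
  have k3 : ∫ x, V' x ∂ν ≤ ∫ x, V x ∂ν + ν.real univ * ε := by
    have e1 : ∫ x, (V x + ε) ∂ν = ∫ x, V x ∂ν + ν.real univ * ε := by
      rw [integral_add i3 (integrable_const _), integral_const, smul_eq_mul]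
    rw [← e1]
    refine integral_mono i4 (i3.add (integrable_const _)) fun x => ?_
    have := (abs_le.1 (hV'a x)).2
    show V' x ≤ V x + ε
    linarith
  have k4 : (∫ z in F, V (mkM Γ z)) / (volume F).toReal ≤
      (∫ z in F, V' (mkM Γ z)) / (volume F).toReal + ε := by
    rcases (ENNReal.toReal_nonneg : 0 ≤ (volume F).toReal).eq_or_lt with h0 | h0
    · rw [← h0, div_zero, div_zero, zero_add]
      exact hε0.le
    · rw [div_le_iff₀ h0, add_mul, div_mul_cancel₀ _ h0.ne', mul_comm ε]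
      exact k2
  have k5 := mul_le_mul_of_nonneg_left k4 hm0
  have k6 : ν.real E * ε ≤ 1 * ε := mul_le_mul_of_nonneg_right hm1 hε0.le
  nlinarith

end Pool.Agent.MS
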