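import Pool.Agent.helper57.MS.Spec

/-!
# Project ms (MP_b48e27_co), row LNE: multiplication with a function for one more part
-/

set_option autoImplicit false

open Finset

namespace Pool.Agent.helper57.MS

open Pool.Agent.RRank Pool.Agent.helper26.IM

theorem LNE : LNE_stmt := by
  intro K _ Ω _ Q F S J PP hJ hJS b hb g hg
  induction hg using Submodule.span_induction with
  | mem g hg =>
    obtain ⟨P', ⟨P, hP, hparts⟩, h, hh, rfl⟩ := hg
    have hJP : J ∉ P'.parts := by
      intro hmem
      obtain ⟨x, hx⟩ := hJ
      have h1 := P'.le hmem hx
      exact (Finset.mem_sdiff.mp h1).2 hx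
    apply Submodule.subset_span
    refine ⟨P, hP, Function.update h J b, ?_, ?_⟩
    · intro I hI
      rw [hparts, Finset.mem_insert] at hI
      by_cases hIJ : I = J
      · rw [hIJ, Function.update_self]
        exact hb
      · rw [Function.update_of_ne hIJ]
        exact hh I (hI.resolve_left hIJ)
    · rw [hparts, Finset.prod_insert hJP, Function.update_self]
      congr 1
      apply Finset.prod_congr rfl
      intro I hI
      rw [Function.update_of_ne]
      rintro rfl
      exact hJP hI
  | zero =>
    rw [mul_zero]
    exact Submodule.zero_mem _
  | add x y _ _ hx hy =>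
    rw [mul_add]
    exact Submodule.add_mem _ hx hy
  | smul c x _ hx =>
    rw [mul_smul_comm]
    exact Submodule.smul_mem _ c hx

end Pool.Agent.helper57.MS
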