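import Pool.Agent.helper57.MS.Spec

/-!
# Project ms (MP_b48e27_co), row TH2R: Theorem 2 for two families
-/

set_option autoImplicit false

open Finset

namespace Pool.Agent.helper57.MS

open Pool.Agent.RRank Pool.Agent.helper26.IM

theorem TH2R (hINS : INS_stmt) (hITU : ITU_stmt) (hMEET : MEET_stmt) (hITR : ITR_stmt)
    (hSRK : SRK_stmt) : TH2R_stmt := by
  intro d r₁ r₂ hd R R'
  by_contra hcon
  push Not at hcon
  choose K iK Q T h1 h2 h3 using hcon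
  have hne : ∀ n α, Nonempty (Q n α) := by
    intro n α
    by_contra hemp
    rw [not_nonempty_iff] at hemp
    apply h3 n 0 (Nat.zero_le n)
    exact ⟨fun i => i.elim0, fun i => i.elim0, fun x => isEmptyElim (x α)⟩
  let 𝓅 : Ultrafilter ℕ := Filter.hyperfilter ℕ
  obtain ⟨F, hF⟩ := hINS 𝓅 K (Fin d) Q
  have e1 := hITU 𝓅 K d Q F hF R T r₁ h1
  have e2 := hITU 𝓅 K d Q F hF R' T r₂ h2
  have hmono : ∀ R : Set (IndexPartition d),
      F.Fs R ≤ F.Fs {P : IndexPartition d | ∃ P₁ ∈ R, P ≤ P₁} := by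
    intro R
    apply Submodule.span_mono
    rintro f ⟨P, hP, h, hh, hf⟩
    exact ⟨P, ⟨P, hP, le_rfl⟩, h, hh, hf⟩
  have hlow : ∀ R : Set (IndexPartition d),
      IsLowerSet {P : IndexPartition d | ∃ P₁ ∈ R, P ≤ P₁} := by
    rintro R P P' hle ⟨P₁, hP₁, hP⟩
    exact ⟨P₁, hP₁, hle.trans hP⟩
  have e3 := hMEET (UF 𝓅 K) (Fin d) _ F univ _ _ (hlow R) (hlow R') _ (hmono R e1) (hmono R' e2)
  obtain ⟨N, hN⟩ := hITR 𝓅 K d Q F hF hd hne _ T e3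
  have h4 : ∀ᶠ n in ((𝓅 : Ultrafilter ℕ) : Filter ℕ), N ≤ n := by
    have h5 : ∀ᶠ n in (Filter.cofinite : Filter ℕ), N ≤ n := by
      rw [Nat.cofinite_eq_atTop]
      exact Filter.eventually_ge_atTop N
    exact (Filter.hyperfilter_le_cofinite (α := ℕ)) h5
  obtain ⟨n, hn1, hn2⟩ := (hN.and h4).exists
  apply h3 n N hn2
  refine (hSRK (K n) d (Q n) (meet R R') _ ?_ (T n)).1 N hn1
  rintro P' ⟨⟨P₁, hP₁, hle₁⟩, ⟨P₂, hP₂, hle₂⟩⟩
  exact ⟨P₁ ⊓ P₂, ⟨P₁, hP₁, P₂, hP₂, rfl⟩, le_inf hle₁ hle₂⟩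

end Pool.Agent.helper57.MS
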